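import Pool.Agent.H617R3.BT.Sieve

set_option autoImplicit false

/-!
# Primes in progressions: counting function, sieve bound, decomposition into cells
-/

namespace Pool.Agent.H617R3.BT

open Finset

/-- the number of primes `p ≡ l (mod k)` with `x - y < p ≤ x` -/
noncomputable def cnt (x y : ℝ) (k : ℕ) (l : ℤ) : ℕ :=
  {p : ℕ | p.Prime ∧ x - y < (p : ℝ) ∧ (p : ℝ) ≤ x ∧ (p : ℤ) ≡ l [ZMOD (k : ℤ)]}.ncard

/-- the reduced residue classes modulo `k q` which lie above the class of `l` modulo `k` -/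
def above (k q : ℕ) (l : ℤ) : Finset ℕ :=
  (range (k * q)).filter (fun a => a.Coprime (k * q) ∧ (a : ℤ) ≡ l [ZMOD (k : ℤ)])

/-- the set counted by `cnt`, as a finite set -/
noncomputable def pf (x y : ℝ) (k : ℕ) (l : ℤ) : Finset ℕ := by
  classical
  exact (range (⌊x⌋₊ + 1)).filter
    (fun p => p.Prime ∧ x - y < (p : ℝ) ∧ (p : ℝ) ≤ x ∧ (p : ℤ) ≡ l [ZMOD (k : ℤ)])

theorem mem_pf {x y : ℝ} {k : ℕ} {l : ℤ} {p : ℕ} : p ∈ pf x y k l ↔
    p.Prime ∧ x - y < (p : ℝ) ∧ (p : ℝ) ≤ x ∧ (p : ℤ) ≡ l [ZMOD (k : ℤ)] := by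
  classical
  unfold pf
  rw [mem_filter, mem_range]
  refine ⟨fun h => h.2, fun h => ⟨?_, h⟩⟩
  have : p ≤ ⌊x⌋₊ := Nat.le_floor h.2.2.1
  omega

theorem cnt_eq (x y : ℝ) (k : ℕ) (l : ℤ) : cnt x y k l = (pf x y k l).card := by
  classical
  unfold cnt
  rw [← Set.ncard_coe_finset]
  congr 1
  ext p
  rw [Finset.mem_coe, mem_pf]
  rfl

/-- the Brun-Titchmarsh inequality with constant `2 + ε` -/
theorem bt (ε : ℝ) (hε : 0 < ε) : ∃ Z : ℝ, 3 ≤ Z ∧ ∀ (k : ℕ) (l : ℤ) (x y : ℝ), 1 ≤ k →
    Z ≤ y / k → (cnt x y k l : ℝ) ≤ (2 + ε) * y / ((Nat.totient k : ℝ) * Real.log (y / k)) := by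
  obtain ⟨N₀, hN3, hN₀⟩ := bt2 (ε / 2) (by linarith)
  refine ⟨max (N₀ : ℝ) (max 3 (4 / ε + 1)), le_max_of_le_right (le_max_left _ _), ?_⟩
  intro k l x y hk hZ
  have hk' : (0 : ℝ) < k := by exact_mod_cast hk
  have ht' : (0 : ℝ) < Nat.totient k := by exact_mod_cast Nat.totient_pos.2 hk
  obtain ⟨z, hz⟩ : ∃ z : ℝ, z = y / k := ⟨_, rfl⟩
  rw [← hz] at hZ ⊢
  have hz0 : (N₀ : ℝ) ≤ z := (le_max_left _ _).trans hZ
  have hz3 : 3 ≤ z := ((le_max_left _ _).trans (le_max_right _ _)).trans hZ
  have hz4 : 4 / ε + 1 ≤ z := ((le_max_right _ _).trans (le_max_right _ _)).trans hZ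
  have hzpos : 0 < z := by linarith
  have hy : y = k * z := by rw [hz]; field_simp
  have hlogz : 0 < Real.log z := Real.log_pos (by linarith)
  rw [cnt_eq]
  rcases (pf x y k l).eq_empty_or_nonempty with he | hne
  · rw [he, card_empty, Nat.cast_zero, hy]
    positivity
  · obtain ⟨a, ha, hamin⟩ := (pf x y k l).exists_min_image id hne
    simp only [id] at hamin
    have haS := mem_pf.1 ha
    obtain ⟨N, hN⟩ : ∃ N : ℕ, N = ⌊z⌋₊ + 1 := ⟨_, rfl⟩
    have hzN : z < N := by rw [hN]; push_cast; exact Nat.lt_floor_add_one z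
    have hNz : (N : ℝ) ≤ z + 1 := by
      rw [hN]; push_cast; linarith [Nat.floor_le hzpos.le]
    have hNN : N₀ ≤ N := by
      have : (N₀ : ℝ) ≤ N := hz0.trans hzN.le
      exact_mod_cast this
    have hsub : pf x y k l ⊆
        ((range N).filter (fun t => (a + t * k).Prime)).image (fun t => a + t * k) := by
      intro p hp
      have hpS := mem_pf.1 hp
      have hap := hamin p hp
      have hmod : (k : ℤ) ∣ (p : ℤ) - a := (haS.2.2.2.trans hpS.2.2.2.symm).dvd
      have hdv : k ∣ p - a := by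
        have h1 : ((p - a : ℕ) : ℤ) = (p : ℤ) - a := by push_cast [Nat.cast_sub hap]; ring
        rw [← h1] at hmod
        exact_mod_cast hmod
      obtain ⟨t, ht⟩ := hdv
      have hpt : p = a + t * k := by
        have : p = a + (p - a) := by omega
        rw [this, ht, mul_comm]
      rw [mem_image]
      refine ⟨t, ?_, hpt.symm⟩
      rw [mem_filter, mem_range]
      refine ⟨?_, hpt ▸ hpS.1⟩
      have h1 : (p : ℝ) = a + t * k := by rw [hpt]; push_cast; ring
      have h2 : (t : ℝ) * k < k * z := by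
        have e1 := haS.2.1
        have e2 := hpS.2.2.1
        rw [hy] at e1
        linarith
      have h3 : (t : ℝ) < z := by nlinarith
      have : (t : ℝ) < N := h3.trans hzN
      exact_mod_cast this
    have hcard : ((pf x y k l).card : ℝ) ≤
        (((range N).filter (fun t => (a + t * k).Prime)).card : ℝ) := by
      exact_mod_cast (card_le_card hsub).trans card_image_le
    refine hcard.trans ((hN₀ a k N hk hNN).trans ?_)
    have hN0 : (0 : ℝ) < N := hzpos.trans hzN
    have h1 : (2 + ε / 2) * ((k : ℝ) / Nat.totient k) * N / Real.log N ≤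
        (2 + ε / 2) * ((k : ℝ) / Nat.totient k) * (z + 1) / Real.log z := by
      apply div_le_div₀ (by positivity) _ hlogz (Real.log_le_log hzpos hzN.le)
      gcongr
    refine h1.trans ?_
    have h2 : (2 + ε) * y / ((Nat.totient k : ℝ) * Real.log z) =
        (2 + ε) * ((k : ℝ) / Nat.totient k) * z / Real.log z := by
      rw [hy]; field_simp
    rw [h2]
    apply div_le_div_of_nonneg_right _ hlogz.le
    have h3 : (2 + ε / 2) * (z + 1) ≤ (2 + ε) * z := by
      have h4 : 4 + ε ≤ ε * z := by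
        have := mul_le_mul_of_nonneg_left hz4 hε.le
        have h5 : ε * (4 / ε + 1) = 4 + ε := by field_simp
        linarith
      nlinarith
    have hK : 0 ≤ (k : ℝ) / Nat.totient k := by positivity
    calc (2 + ε / 2) * ((k : ℝ) / Nat.totient k) * (z + 1)
        = ((k : ℝ) / Nat.totient k) * ((2 + ε / 2) * (z + 1)) := by ring
      _ ≤ ((k : ℝ) / Nat.totient k) * ((2 + ε) * z) := by gcongr
      _ = _ := by ring

/-- the number of reduced classes above a reduced class -/
theorem card_above {k q : ℕ} {l : ℤ} (hk : 1 ≤ k) (hq : 1 ≤ q) (hl : Int.gcd l k = 1) :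
    (above k q l).card * Nat.totient k = Nat.totient (k * q) := by
  classical
  have hkq : 0 < k * q := Nat.mul_pos hk hq
  have : NeZero k := ⟨by omega⟩
  have : NeZero (k * q) := ⟨by omega⟩
  have hd : k ∣ k * q := Dvd.intro q rfl
  set f : (ZMod (k * q))ˣ →* (ZMod k)ˣ := ZMod.unitsMap hd with hf
  have hsurj : Function.Surjective f := ZMod.unitsMap_surjective hd
  have hlu : IsUnit ((l : ℤ) : ZMod k) := by
    rw [ZMod.coe_int_isUnit_iff_isCoprime, Int.isCoprime_iff_gcd_eq_one, Int.gcd_comm]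
    exact hl
  obtain ⟨v, hv⟩ := hlu
  have hfib : ∀ w : (ZMod k)ˣ, (univ.filter (fun u => f u = w)).card =
      (univ.filter (fun u => f u = v)).card := fun w =>
    MonoidHom.card_fiber_eq_of_mem_range f (hsurj w) (hsurj v)
  have htot : (univ : Finset (ZMod (k * q))ˣ).card =
      ∑ w : (ZMod k)ˣ, (univ.filter (fun u => f u = w)).card :=
    card_eq_sum_card_fiberwise (fun _ _ => mem_univ _)
  rw [sum_congr rfl fun w _ => hfib w, sum_const, smul_eq_mul, card_univ, card_univ,
    ZMod.card_units_eq_totient, ZMod.card_units_eq_totient] at htot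
  rw [htot, mul_comm]
  congr 1
  symm
  apply card_bij (fun (u : (ZMod (k * q))ˣ) _ => (u : ZMod (k * q)).val)
  · intro u hu
    rw [mem_filter] at hu
    unfold above
    rw [mem_filter, mem_range]
    refine ⟨ZMod.val_lt _, ZMod.val_coe_unit_coprime u, ?_⟩
    rw [← ZMod.intCast_eq_intCast_iff]
    have h1 : ((f u : (ZMod k)ˣ) : ZMod k) = ((l : ℤ) : ZMod k) := by rw [hu.2, hv]
    rw [← h1, hf, ZMod.unitsMap_val]
    push_cast
    rw [ZMod.natCast_val]
  · intro u _ w _ h
    exact Units.ext (ZMod.val_injective _ h)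
  · intro a ha
    unfold above at ha
    rw [mem_filter, mem_range] at ha
    refine ⟨ZMod.unitOfCoprime a ha.2.1, ?_, ?_⟩
    · rw [mem_filter]
      refine ⟨mem_univ _, ?_⟩
      apply Units.ext
      rw [hf, ZMod.unitsMap_val, ZMod.coe_unitOfCoprime, hv]
      have h2 := (ZMod.intCast_eq_intCast_iff _ _ _).2 ha.2.2
      rw [← h2]
      push_cast
      rw [ZMod.cast_natCast hd]
    · rw [ZMod.coe_unitOfCoprime, ZMod.val_natCast, Nat.mod_eq_of_lt ha.1]

/-- decomposition into cells: classes modulo `k q` and `m` intervals of length `w` -/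
theorem cnt_le_cells {k q m : ℕ} {l : ℤ} {x y w : ℝ} (hk : 1 ≤ k) (hq : 1 ≤ q)
    (hl : Int.gcd l k = 1) (hw : 0 < w) (hm : y ≤ m * w) :
    (cnt x y k l : ℝ) ≤ Real.log q / Real.log 2 +
      ∑ i ∈ range m, ∑ a ∈ above k q l, (cnt (x - y + (i + 1) * w) w (k * q) a : ℝ) := by
  classical
  have hkq : 0 < k * q := Nat.mul_pos hk hq
  have hsub : pf x y k l ⊆ q.primeFactors ∪ (range m).biUnion (fun i =>
      (above k q l).biUnion (fun a => pf (x - y + (i + 1) * w) w (k * q) a)) := by
    intro p hp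
    have hpS := mem_pf.1 hp
    rw [mem_union]
    by_cases hpq : p ∣ q
    · exact Or.inl (Nat.mem_primeFactors.2 ⟨hpS.1, hpq, by omega⟩)
    · right
      have hpk : p.Coprime k := by
        have hlc : IsCoprime l (k : ℤ) := Int.isCoprime_iff_gcd_eq_one.2 hl
        obtain ⟨c, hc⟩ := hpS.2.2.2.dvd
        have hpc : IsCoprime (p : ℤ) (k : ℤ) := by
          have h1 : l = (p : ℤ) + k * c := by linarith
          rw [h1] at hlc
          exact (IsCoprime.add_mul_left_left_iff).1 hlc
        exact Nat.isCoprime_iff_coprime.1 hpc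
      have hpq' : p.Coprime q := (Nat.Prime.coprime_iff_not_dvd hpS.1).2 hpq
      have hpkq : p.Coprime (k * q) := Nat.Coprime.mul_right hpk hpq'
      obtain ⟨t, ht⟩ : ∃ t : ℝ, t = (p : ℝ) - (x - y) := ⟨_, rfl⟩
      have ht0 : 0 < t := by rw [ht]; linarith [hpS.2.1]
      have hty : t ≤ y := by rw [ht]; linarith [hpS.2.2.1]
      have htw : 0 < t / w := by positivity
      have hc1 : t / w ≤ (⌈t / w⌉₊ : ℝ) := Nat.le_ceil _
      have hc2 : (⌈t / w⌉₊ : ℝ) < t / w + 1 := Nat.ceil_lt_add_one htw.le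
      have hcpos : 0 < ⌈t / w⌉₊ := Nat.ceil_pos.2 htw
      obtain ⟨i, hi⟩ : ∃ i : ℕ, ⌈t / w⌉₊ = i + 1 := ⟨⌈t / w⌉₊ - 1, by omega⟩
      rw [hi] at hc1 hc2
      push_cast at hc1 hc2
      have hiw : i * w < t := by
        have h1 : (i : ℝ) < t / w := by linarith
        rwa [lt_div_iff₀ hw] at h1
      have hiw2 : t ≤ (i + 1) * w := by
        rwa [div_le_iff₀ hw] at hc1
      rw [mem_biUnion]
      refine ⟨i, ?_, ?_⟩
      · rw [mem_range]
        have h1 : (i : ℝ) * w < m * w := by linarith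
        have h2 : (i : ℝ) < m := lt_of_mul_lt_mul_right h1 hw.le
        exact_mod_cast h2
      · rw [mem_biUnion]
        refine ⟨p % (k * q), ?_, ?_⟩
        · unfold above
          rw [mem_filter, mem_range]
          refine ⟨Nat.mod_lt _ hkq, ?_, ?_⟩
          · have h1 : Nat.gcd (p % (k * q)) (k * q) = Nat.gcd p (k * q) :=
              (Nat.mod_modEq p (k * q)).gcd_eq
            rw [Nat.Coprime, h1]
            exact hpkq
          · have h1 : ((p % (k * q) : ℕ) : ℤ) ≡ (p : ℤ) [ZMOD (k : ℤ)] := by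
              rw [Int.natCast_modEq_iff]
              exact (Nat.mod_modEq p (k * q)).of_mul_right q
            exact h1.trans hpS.2.2.2
        · rw [mem_pf]
          refine ⟨hpS.1, ?_, ?_, ?_⟩
          · rw [ht] at hiw
            linarith
          · rw [ht] at hiw2
            linarith
          · rw [Int.natCast_modEq_iff]
            exact (Nat.mod_modEq p (k * q)).symm
  have h1 : (pf x y k l).card ≤ q.primeFactors.card +
      ∑ i ∈ range m, ∑ a ∈ above k q l, cnt (x - y + (i + 1) * w) w (k * q) a := by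
    refine (card_le_card hsub).trans ((card_union_le _ _).trans ?_)
    refine Nat.add_le_add_left (card_biUnion_le.trans (sum_le_sum fun i _ => ?_)) _
    refine card_biUnion_le.trans (sum_le_sum fun a _ => ?_)
    rw [cnt_eq]
  rw [cnt_eq]
  have h2 : ((pf x y k l).card : ℝ) ≤ (q.primeFactors.card : ℝ) +
      ∑ i ∈ range m, ∑ a ∈ above k q l, (cnt (x - y + (i + 1) * w) w (k * q) a : ℝ) := by
    exact_mod_cast h1
  have h3 := card_primeFactors_le (d := q) (by omega)
  linarith

end Pool.Agent.H617R3.BT
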