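import Pool.Agent.H617R3.BT.Defs

set_option autoImplicit false

/-!
# Near extremal progressions for the Brun-Titchmarsh inequality are equidistributed
-/

namespace Pool.Agent.H617R3.BT

open Finset Filter Topology

theorem log_sq_le {z : ℝ} (hz : 1 ≤ z) : Real.log z ^ 2 ≤ 4 * z := by
  have hs : 0 < Real.sqrt z := Real.sqrt_pos.2 (by linarith)
  have h1 : Real.log (Real.sqrt z) ≤ Real.sqrt z - 1 := Real.log_le_sub_one_of_pos hs
  have h2 : Real.log (Real.sqrt z) = Real.log z / 2 := Real.log_sqrt (by linarith)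
  have h3 : 0 ≤ Real.log z := Real.log_nonneg hz
  have h4 : Real.sqrt z ^ 2 = z := Real.sq_sqrt (by linarith)
  have h5 : Real.log z ≤ 2 * Real.sqrt z := by linarith
  nlinarith

theorem poly_ineq {C δ : ℝ} (hC1 : 1 ≤ C) (hδ0 : 0 < δ) (hδ1 : δ ≤ 1 / 8) :
    C + δ ≤ (1 + 8 * δ) * (C - δ) * (1 - δ) := by
  have h1 : (1 + 8 * δ) * (C - δ) * (1 - δ) - (C + δ) =
      δ * (7 * C - 2 - 8 * δ * (1 + C)) + δ ^ 2 + 8 * δ ^ 3 := by ring
  have h2 : 8 * δ * (1 + C) ≤ 1 + C := by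
    have : 0 ≤ (1 - 8 * δ) * (1 + C) := mul_nonneg (by linarith) (by linarith)
    linarith
  have h3 : 0 ≤ δ * (7 * C - 2 - 8 * δ * (1 + C)) := mul_nonneg hδ0.le (by linarith)
  have h4 : 0 ≤ δ ^ 2 + 8 * δ ^ 3 := by positivity
  linarith

/-- the Brun-Titchmarsh inequality with constant `C` for `y / k` large -/
def Bd (C : ℝ) : Prop := ∃ Z₀ : ℝ, ∀ (k : ℕ) (l : ℤ) (x y : ℝ), 1 ≤ k → Int.gcd l k = 1 →
  y ≤ x → Z₀ ≤ y / k →
    (cnt x y k l : ℝ) ≤ C * y / ((Nat.totient k : ℝ) * Real.log (y / k))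

/-- a near extremal progression has nearly the largest density among all progressions
which are not much shorter -/
theorem dens_le {C : ℝ} (hC1 : 1 ≤ C) (hC : ∀ ε : ℝ, 0 < ε → Bd (C + ε)) {ε : ℝ} (hε : 0 < ε)
    (hε1 : ε ≤ 1) : ∃ Z : ℝ, 9 ≤ Z ∧
    ∀ (k : ℕ) (l : ℤ) (x y : ℝ), 1 ≤ k → Z ≤ y / k →
    (C - ε / 8) * y / ((Nat.totient k : ℝ) * Real.log (y / k)) ≤ cnt x y k l →
    ∀ (K : ℕ) (L : ℤ) (X Y : ℝ), 1 ≤ K → Int.gcd L K = 1 → Y ≤ X →
      (y / k) ^ (1 - ε / 8) ≤ Y / K →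
      (Nat.totient K : ℝ) * cnt X Y K L / Y ≤
        (1 + ε) * ((Nat.totient k : ℝ) * cnt x y k l / y) := by
  obtain ⟨Z0, hZ0⟩ := hC (ε / 8) (by linarith)
  obtain ⟨Z1, hZ1def⟩ : ∃ Z1 : ℝ, Z1 = max Z0 3 := ⟨_, rfl⟩
  have hZ13 : 3 ≤ Z1 := by rw [hZ1def]; exact le_max_right _ _
  have hZ1 : ∀ (k : ℕ) (l : ℤ) (x y : ℝ), 1 ≤ k → Int.gcd l k = 1 → y ≤ x → Z1 ≤ y / k →
      (cnt x y k l : ℝ) ≤ (C + ε / 8) * y / ((Nat.totient k : ℝ) * Real.log (y / k)) := by
    intro k l x y h1 h2 h3 h4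
    exact hZ0 k l x y h1 h2 h3 (le_trans (by rw [hZ1def]; exact le_max_left _ _) h4)
  refine ⟨Z1 ^ 2, by nlinarith, ?_⟩
  intro k l x y hk hz hN K L X Y hK hL hXY hKY
  have hk' : (0 : ℝ) < k := by exact_mod_cast hk
  have hK' : (0 : ℝ) < K := by exact_mod_cast hK
  have htk : (0 : ℝ) < Nat.totient k := by exact_mod_cast Nat.totient_pos.2 hk
  have htK : (0 : ℝ) < Nat.totient K := by exact_mod_cast Nat.totient_pos.2 hK
  obtain ⟨z, hzdef⟩ : ∃ z : ℝ, z = y / k := ⟨_, rfl⟩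
  rw [← hzdef] at hz hN hKY
  obtain ⟨δ, hδ⟩ : ∃ δ : ℝ, δ = ε / 8 := ⟨_, rfl⟩
  rw [← hδ] at hN hKY hZ1
  have hδ0 : 0 < δ := by linarith
  have hδ1 : δ ≤ 1 / 8 := by linarith
  have hz9 : 9 ≤ z := by nlinarith
  have hz0 : 0 < z := by linarith
  have hy : 0 < y := by
    have : y = k * z := by rw [hzdef]; field_simp
    rw [this]; positivity
  have hlz : 0 < Real.log z := Real.log_pos (by linarith)
  have h1 : Z1 ≤ z ^ (1 - δ) := by
    have e1 : z ^ ((1 : ℝ) / 2) ≤ z ^ (1 - δ) :=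
      Real.rpow_le_rpow_of_exponent_le (by linarith) (by linarith)
    have e2 : Z1 ≤ z ^ ((1 : ℝ) / 2) := by
      rw [← Real.sqrt_eq_rpow]
      exact Real.le_sqrt_of_sq_le hz
    linarith
  have hYK0 : 0 < Y / K := by
    have : 0 < z ^ (1 - δ) := Real.rpow_pos_of_pos hz0 _
    linarith
  have hY : 0 < Y := by
    have := mul_pos hYK0 hK'
    rwa [div_mul_cancel₀ _ hK'.ne'] at this
  have h2 := hZ1 K L X Y hK hL hXY (h1.trans hKY)
  have h3 : (1 - δ) * Real.log z ≤ Real.log (Y / K) := by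
    rw [← Real.log_rpow hz0]
    exact Real.log_le_log (Real.rpow_pos_of_pos hz0 _) hKY
  have h30 : 0 < (1 - δ) * Real.log z := mul_pos (by linarith) hlz
  have hlY : 0 < Real.log (Y / K) := lt_of_lt_of_le h30 h3
  have h4 : (Nat.totient K : ℝ) * cnt X Y K L / Y ≤ (C + δ) / Real.log (Y / K) := by
    rw [div_le_div_iff₀ hY hlY]
    rw [le_div_iff₀ (by positivity)] at h2
    linarith
  have h5 : (C - δ) / Real.log z ≤ (Nat.totient k : ℝ) * cnt x y k l / y := by
    rw [div_le_div_iff₀ hlz hy]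
    rw [div_le_iff₀ (by positivity)] at hN
    linarith
  have h6 : (C + δ) / Real.log (Y / K) ≤ (C + δ) / ((1 - δ) * Real.log z) :=
    div_le_div_of_nonneg_left (by linarith) h30 h3
  have h7 : (C + δ) / ((1 - δ) * Real.log z) ≤ (1 + ε) * ((C - δ) / Real.log z) := by
    rw [div_le_iff₀ h30]
    have e1 : (1 + ε) * ((C - δ) / Real.log z) * ((1 - δ) * Real.log z) =
        (1 + ε) * (C - δ) * (1 - δ) := by field_simp
    rw [e1]
    have e2 : ε = 8 * δ := by linarith
    rw [e2]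
    exact poly_ineq hC1 hδ0 hδ1
  calc (Nat.totient K : ℝ) * cnt X Y K L / Y ≤ (C + δ) / Real.log (Y / K) := h4
    _ ≤ (C + δ) / ((1 - δ) * Real.log z) := h6
    _ ≤ (1 + ε) * ((C - δ) / Real.log z) := h7
    _ ≤ (1 + ε) * ((Nat.totient k : ℝ) * cnt x y k l / y) :=
      mul_le_mul_of_nonneg_left h5 (by linarith)

/-- a near extremal progression is equidistributed among its subprogressions -/
theorem tv_le {C : ℝ} (hC1 : 1 ≤ C) (hC : ∀ ε : ℝ, 0 < ε → Bd (C + ε)) {ε : ℝ} (hε : 0 < ε)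
    (hε1 : ε ≤ 1) : ∃ Z : ℝ, 9 ≤ Z ∧
    ∀ (k : ℕ) (l : ℤ) (x y : ℝ), 1 ≤ k → Int.gcd l k = 1 → y ≤ x → Z ≤ y / k →
    (C - ε / 8) * y / ((Nat.totient k : ℝ) * Real.log (y / k)) ≤ cnt x y k l →
    ∀ q m : ℕ, 1 ≤ q → 1 ≤ m → (m : ℝ) * q ≤ (y / k) ^ (ε / 8) →
      ∑ i ∈ range m, ∑ a ∈ above k q l,
        |(cnt (x - y + (i + 1) * (y / m)) (y / m) (k * q) a : ℝ) -
          (cnt x y k l : ℝ) * Nat.totient k / (m * Nat.totient (k * q))| ≤
        3 * ε * cnt x y k l := by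
  obtain ⟨Z, hZ9, hZ⟩ := dens_le hC1 hC hε hε1
  refine ⟨Z, hZ9, ?_⟩
  intro k l x y hk hl hxy hz hN q m hq hm hmq
  have hmain := hZ k l x y hk hz hN
  have hk' : (0 : ℝ) < k := by exact_mod_cast hk
  have hq' : (1 : ℝ) ≤ q := by exact_mod_cast hq
  have hm' : (1 : ℝ) ≤ m := by exact_mod_cast hm
  have hkq : 1 ≤ k * q := Nat.mul_pos hk hq
  have htk : (0 : ℝ) < Nat.totient k := by exact_mod_cast Nat.totient_pos.2 hk
  have htkq : (0 : ℝ) < Nat.totient (k * q) := by exact_mod_cast Nat.totient_pos.2 hkq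
  obtain ⟨z, hzdef⟩ : ∃ z : ℝ, z = y / k := ⟨_, rfl⟩
  rw [← hzdef] at hz hN hmq hmain
  obtain ⟨δ, hδ⟩ : ∃ δ : ℝ, δ = ε / 8 := ⟨_, rfl⟩
  rw [← hδ] at hN hmq hmain
  have hδ0 : 0 < δ := by linarith
  have hδ1 : δ ≤ 1 / 8 := by linarith
  have hz9 : 9 ≤ z := hZ9.trans hz
  have hz0 : 0 < z := by linarith
  have hyz : y = k * z := by rw [hzdef]; field_simp
  have hy : 0 < y := by rw [hyz]; positivity
  have hlz : 0 < Real.log z := Real.log_pos (by linarith)
  have hw : 0 < y / m := by positivity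
  obtain ⟨A, hA⟩ : ∃ A : ℝ, A = (cnt x y k l : ℝ) * Nat.totient k / (m * Nat.totient (k * q)) :=
    ⟨_, rfl⟩
  rw [← hA]
  have hA0 : 0 ≤ A := by rw [hA]; positivity
  -- each cell is at most `(1 + ε) A`
  have hcell : ∀ (i a : ℕ), a ∈ above k q l →
      (cnt (x - y + (i + 1) * (y / m)) (y / m) (k * q) a : ℝ) ≤ (1 + ε) * A := by
    intro i a ha
    have ha' : Int.gcd (a : ℤ) (k * q : ℕ) = 1 := by
      rw [Int.gcd_natCast_natCast]
      exact (mem_filter.1 ha).2.1
    have hxi : y / m ≤ x - y + (i + 1) * (y / m) := by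
      have : 0 ≤ (i : ℝ) * (y / m) := by positivity
      linarith
    have h1 : z ^ (1 - δ) ≤ y / m / ((k * q : ℕ) : ℝ) := by
      have e1 : y / m / ((k * q : ℕ) : ℝ) = z / (m * q) := by
        rw [hyz]; push_cast; field_simp
      rw [e1, le_div_iff₀ (by positivity), Real.rpow_sub hz0, Real.rpow_one]
      have hzd : 0 < z ^ δ := Real.rpow_pos_of_pos hz0 _
      rw [div_mul_eq_mul_div, div_le_iff₀ hzd]
      exact mul_le_mul_of_nonneg_left hmq hz0.le
    have h2 := hmain (k * q) a (x - y + (i + 1) * (y / m)) (y / m) hkq ha' hxi h1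
    rw [div_le_iff₀ hw] at h2
    have h3 : (1 + ε) * ((Nat.totient k : ℝ) * cnt x y k l / y) * (y / m) =
        (Nat.totient (k * q) : ℝ) * ((1 + ε) * A) := by
      rw [hA]; field_simp
    rw [h3] at h2
    exact le_of_mul_le_mul_left h2 htkq
  -- the number of cells
  have hcard : (m : ℝ) * ((above k q l).card * A) = cnt x y k l := by
    have h1 : ((above k q l).card : ℝ) * Nat.totient k = Nat.totient (k * q) := by
      exact_mod_cast card_above hk hq hl
    rw [hA, ← h1]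
    have h2 : (0 : ℝ) < (above k q l).card := by
      by_contra h
      have h0 : ((above k q l).card : ℝ) = 0 := le_antisymm (not_lt.1 h) (Nat.cast_nonneg _)
      rw [h0] at h1
      linarith
    have hm0 : (0 : ℝ) < m := by linarith
    clear hA hcell hmain hN hmq
    generalize (cnt x y k l : ℝ) = N at *
    generalize ((above k q l).card : ℝ) = Q at *
    generalize (Nat.totient k : ℝ) = P at *
    field_simp
  have hsum := cnt_le_cells (m := m) (x := x) (y := y) hk hq hl hw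
    (by rw [mul_div_cancel₀ _ (by linarith)])
  have hpt : ∀ c : ℝ, c ≤ (1 + ε) * A → |c - A| ≤ 2 * ε * A + A - c := by
    intro c hc
    have h0 : 0 ≤ ε * A := by positivity
    rw [abs_le]
    constructor
    · linarith
    · linarith
  have hlq : Real.log q / Real.log 2 ≤ ε * cnt x y k l := by
    have h1 : Real.log q ≤ δ * Real.log z := by
      rw [← Real.log_rpow hz0]
      apply Real.log_le_log (by linarith)
      refine le_trans ?_ hmq
      exact le_mul_of_one_le_left (by linarith) hm'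
    have hl2 : 2 / 3 < Real.log 2 := by
      have := Real.log_two_gt_d9
      linarith
    have h2 : Real.log q / Real.log 2 ≤ 3 / 2 * (δ * Real.log z) := by
      rw [div_le_iff₀ (by linarith)]
      have e0 : 0 < δ * Real.log z := by positivity
      have e1 := mul_le_mul_of_nonneg_left hl2.le e0.le
      linarith
    have h3 : 7 / 8 * z / Real.log z ≤ cnt x y k l := by
      refine le_trans ?_ hN
      have hkk : (Nat.totient k : ℝ) ≤ k := by exact_mod_cast Nat.totient_le k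
      rw [div_le_div_iff₀ hlz (by positivity), hyz]
      have e1 : 7 / 8 * z * (Nat.totient k * Real.log z) ≤ 7 / 8 * z * (k * Real.log z) := by
        gcongr
      have e3 : (C - δ) * (k * z) * Real.log z =
          7 / 8 * z * (k * Real.log z) + (C - δ - 7 / 8) * (z * (k * Real.log z)) := by ring
      have e4 : 0 ≤ (C - δ - 7 / 8) * (z * (k * Real.log z)) :=
        mul_nonneg (by linarith) (by positivity)
      linarith
    have h4 : Real.log z ≤ 4 * (z / Real.log z) := by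
      rw [mul_div_assoc', le_div_iff₀ hlz]
      have := log_sq_le (z := z) (by linarith)
      linarith [sq (Real.log z)]
    have h5 : 7 / 8 * Real.log z ≤ 4 * cnt x y k l := by
      have : 7 / 8 * z / Real.log z = 7 / 8 * (z / Real.log z) := by ring
      linarith
    have e2 : ε = 8 * δ := by linarith
    have h6 := mul_le_mul_of_nonneg_left h5 hδ0.le
    have h7 : 0 ≤ δ * Real.log z := by positivity
    rw [e2]
    linarith
  calc ∑ i ∈ range m, ∑ a ∈ above k q l,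
        |(cnt (x - y + (i + 1) * (y / m)) (y / m) (k * q) a : ℝ) - A|
      ≤ ∑ i ∈ range m, ∑ a ∈ above k q l, (2 * ε * A + A -
        (cnt (x - y + (i + 1) * (y / m)) (y / m) (k * q) a : ℝ)) :=
        sum_le_sum fun i _ => sum_le_sum fun a ha => hpt _ (hcell i a ha)
    _ = (2 * ε + 1) * (m * ((above k q l).card * A)) - ∑ i ∈ range m, ∑ a ∈ above k q l,
        (cnt (x - y + (i + 1) * (y / m)) (y / m) (k * q) a : ℝ) := by
        simp only [sum_sub_distrib, sum_const, card_range, nsmul_eq_mul]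
        ring
    _ ≤ 3 * ε * cnt x y k l := by
        rw [hcard]
        linarith

end Pool.Agent.H617R3.BT
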