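import Pool.Agent.H617R3.BT.Main

set_option autoImplicit false

/-!
# The asymptotic improvement of the constant 2 may be tested on sparse lengths and on
moduli divisible by a prescribed integer
-/

namespace Pool.Agent.H617R3.BT

open Finset Filter Topology

/-- the inequality with constant `C` for the progressions with `y = k Z_j` and `D_j ∣ k` -/
def BdAlong (Z : ℕ → ℝ) (D : ℕ → ℕ) (C : ℝ) : Prop := ∃ J : ℕ, ∀ j, J ≤ j →
  ∀ (k : ℕ) (l : ℤ) (x : ℝ), 1 ≤ k → D j ∣ k → Int.gcd l k = 1 → k * Z j ≤ x →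
    (cnt x (k * Z j) k l : ℝ) ≤ C * (k * Z j) / ((Nat.totient k : ℝ) * Real.log (Z j))

theorem exists_scale (L : ℕ → ℝ) (hL : Tendsto L atTop atTop)
    (hr : Tendsto (fun j => L (j + 1) / L j) atTop (𝓝 1)) {η : ℝ} (hη : 0 < η) (hη1 : η ≤ 1)
    (J : ℕ) :
    ∃ u₀ : ℝ, ∀ u, u₀ ≤ u → ∃ j, J ≤ j ∧ L j ≤ (1 - η / 2) * u ∧ (1 - η) * u ≤ L j := by
  have h1 : ∀ᶠ j in atTop, 0 < L j := hL.eventually_gt_atTop 0
  have h2 : ∀ᶠ j in atTop, L (j + 1) / L j < 1 + η / 4 := hr.eventually_lt_const (by linarith)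
  obtain ⟨J1, hJ1⟩ := eventually_atTop.1 (h1.and (h2.and (eventually_ge_atTop J)))
  refine ⟨2 * L J1, fun u hu => ?_⟩
  have hpos : 0 < L J1 := (hJ1 J1 le_rfl).1
  have hu0 : 0 < u := by linarith
  have hex : ∃ j, J1 ≤ j ∧ (1 - η / 2) * u < L (j + 1) := by
    have hs : Tendsto (fun n => L (n + 1)) atTop atTop := (tendsto_add_atTop_iff_nat 1).2 hL
    obtain ⟨j, hj1, hj2⟩ :=
      ((hs.eventually_gt_atTop ((1 - η / 2) * u)).and (eventually_ge_atTop J1)).exists
    exact ⟨j, hj2, hj1⟩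
  classical
  obtain ⟨hj1, hj2⟩ := Nat.find_spec hex
  have hmin := fun m => Nat.find_min (H := hex) (m := m)
  generalize Nat.find hex = j at hj1 hj2 hmin
  have hLj : L j ≤ (1 - η / 2) * u := by
    rcases eq_or_lt_of_le hj1 with h | h
    · rw [← h]; nlinarith
    · have h3 := hmin (j - 1) (by omega)
      have h4 : ¬ ((1 - η / 2) * u < L (j - 1 + 1)) := fun h5 => h3 ⟨by omega, h5⟩
      have h6 : j - 1 + 1 = j := by omega
      rw [h6] at h4
      exact not_lt.1 h4
  refine ⟨j, (hJ1 j hj1).2.2, hLj, ?_⟩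
  have h5 := (hJ1 j hj1).2.1
  have h6 := (hJ1 j hj1).1
  rw [div_lt_iff₀ h6] at h5
  have h7 : (1 - η) * u * (1 + η / 4) ≤ (1 - η / 2) * u := by
    have : 0 ≤ (η / 4 + η ^ 2 / 4) * u := by positivity
    nlinarith
  have h8 : (1 - η) * u * (1 + η / 4) ≤ L j * (1 + η / 4) := by linarith
  exact le_of_mul_le_mul_right h8 (by linarith)

theorem const_ineq {C t : ℝ} (hC0 : 0 < C) (hC2 : C ≤ 2) (ht : 0 < t) (ht1 : t ≤ 1 / 16) :
    t + C * (1 + t) / (1 - t) ≤ C + 16 * t := by
  have h1 : (0 : ℝ) < 1 - t := by linarith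
  have h2 : C * (1 + t) / (1 - t) ≤ C + 15 * t := by
    rw [div_le_iff₀ h1]
    have h3 : (C + 15 * t) * (1 - t) - C * (1 + t) = t * (15 - 15 * t - 2 * C) := by ring
    have h4 : 0 ≤ t * (15 - 15 * t - 2 * C) := mul_nonneg ht.le (by linarith)
    linarith
  linarith

theorem bd_of_along (Z : ℕ → ℝ) (D : ℕ → ℕ) (hZ : Tendsto Z atTop atTop)
    (hr : Tendsto (fun j => Real.log (Z (j + 1)) / Real.log (Z j)) atTop (𝓝 1))
    (hD1 : ∀ j, 1 ≤ D j)
    (hD : Tendsto (fun j => Real.log (D j) / Real.log (Z j)) atTop (𝓝 0))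
    {C ε : ℝ} (hC0 : 0 < C) (hC2 : C ≤ 2) (hε : 0 < ε) (hε1 : ε ≤ 1)
    (h : BdAlong Z D C) : Bd (C + ε) := by
  obtain ⟨J, hJ⟩ := h
  obtain ⟨t, ht⟩ : ∃ t : ℝ, t = ε / 16 := ⟨_, rfl⟩
  have hη0 : 0 < t := by linarith
  have hη1 : t ≤ 1 / 16 := by linarith
  have hL : Tendsto (fun j => Real.log (Z j)) atTop atTop := Real.tendsto_log_atTop.comp hZ
  have e1 : ∀ᶠ j in atTop, Real.log (D j) / Real.log (Z j) < t / 4 :=
    hD.eventually_lt_const (by positivity)
  have e2 : ∀ᶠ j in atTop, 1 < Z j := hZ.eventually_gt_atTop 1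
  obtain ⟨J1, hJ1⟩ := eventually_atTop.1 (e1.and (e2.and (eventually_ge_atTop J)))
  obtain ⟨u₀, hu₀⟩ := exists_scale (fun j => Real.log (Z j)) hL hr hη0 (by linarith) J1
  have f1 : ∀ᶠ z : ℝ in atTop, u₀ ≤ Real.log z := Real.tendsto_log_atTop.eventually_ge_atTop u₀
  have f2 : ∀ᶠ z : ℝ in atTop, z ^ (-(t / 4)) ≤ t :=
    (tendsto_rpow_neg_atTop (by positivity)).eventually_le_const (by positivity)
  have f3 : ∀ᶠ z : ℝ in atTop, Real.log z ^ 2 ≤ t * z := by
    have h0 : ∀ᶠ z : ℝ in atTop, ‖Real.log z ^ 2‖ ≤ t * ‖id z‖ :=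
      (Real.isLittleO_pow_log_id_atTop (n := 2)).def (by positivity)
    filter_upwards [h0, eventually_ge_atTop (0 : ℝ)] with z hz hz0
    rw [Real.norm_of_nonneg (by positivity), id, Real.norm_of_nonneg hz0] at hz
    exact hz
  obtain ⟨Z₀, hZ₀⟩ := eventually_atTop.1 (f1.and (f2.and (f3.and (eventually_ge_atTop (3 : ℝ)))))
  refine ⟨Z₀, ?_⟩
  intro k l x y hk hl hyx hz
  have hk' : (0 : ℝ) < k := by exact_mod_cast hk
  have htk : (0 : ℝ) < Nat.totient k := by exact_mod_cast Nat.totient_pos.2 hk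
  obtain ⟨z, hzdef⟩ : ∃ z : ℝ, z = y / k := ⟨_, rfl⟩
  rw [← hzdef] at hz ⊢
  obtain ⟨g1, g2, g3, g4⟩ := hZ₀ z hz
  obtain ⟨j, hj, hj1, hj2⟩ := hu₀ (Real.log z) g1
  obtain ⟨d1, d2, d3⟩ := hJ1 j hj
  have hz0 : 0 < z := by linarith
  have hyz : y = k * z := by rw [hzdef]; field_simp
  have hy : 0 < y := by rw [hyz]; positivity
  have hlz : 0 < Real.log z := Real.log_pos (by linarith)
  have hcellJ := hJ j d3
  have hDj : 1 ≤ D j := hD1 j

  generalize Z j = Zj at *
  generalize D j = d at *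
  have hlZ : 0 < Real.log Zj := Real.log_pos d2
  have hd1 : (1 : ℝ) ≤ d := by exact_mod_cast hDj
  have hlD : Real.log d ≤ t / 4 * Real.log Zj := by
    rw [div_lt_iff₀ hlZ] at d1
    exact d1.le
  have hkd : 1 ≤ k * d := Nat.mul_pos hk hDj
  have htkd : (0 : ℝ) < Nat.totient (k * d) := by exact_mod_cast Nat.totient_pos.2 hkd
  obtain ⟨w, hw⟩ : ∃ w : ℝ, w = ((k * d : ℕ) : ℝ) * Zj := ⟨_, rfl⟩
  have hw' : w = k * (d * Zj) := by rw [hw]; push_cast; ring
  have hw0 : 0 < w := by rw [hw']; positivity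
  obtain ⟨m, hm⟩ : ∃ m : ℕ, m = ⌈y / w⌉₊ := ⟨_, rfl⟩
  have hm1 : y ≤ m * w := by
    rw [← div_le_iff₀ hw0, hm]
    exact Nat.le_ceil _
  have hm2 : m * w ≤ y + w := by
    have h1 : (m : ℝ) < y / w + 1 := by rw [hm]; exact Nat.ceil_lt_add_one (by positivity)
    have h2 := mul_le_mul_of_nonneg_right h1.le hw0.le
    rwa [add_mul, div_mul_cancel₀ _ hw0.ne', one_mul] at h2
  obtain ⟨T, hT⟩ : ∃ T : ℝ, T = C * w / ((Nat.totient (k * d) : ℝ) * Real.log Zj) :=
    ⟨_, rfl⟩
  have hcell : ∀ i : ℕ, ∀ a ∈ above k d l,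
      (cnt (x - y + (i + 1) * w) w (k * d) a : ℝ) ≤ T := by
    intro i a ha
    have ha' := (mem_filter.1 ha).2.1
    have h1 : Int.gcd (a : ℤ) (k * d : ℕ) = 1 := by
      rw [Int.gcd_natCast_natCast]; exact ha'
    have h2 : ((k * d : ℕ) : ℝ) * Zj ≤ x - y + (i + 1) * w := by
      rw [← hw]
      have : 0 ≤ (i : ℝ) * w := by positivity
      linarith
    have h3 := hcellJ (k * d) a (x - y + (i + 1) * w) hkd (Dvd.intro_left k rfl) h1 h2
    rw [← hw] at h3
    rw [hT]
    exact h3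
  have hsum := cnt_le_cells (m := m) (x := x) (y := y) hk hDj hl hw0 hm1
  have hcard : ((above k d l).card : ℝ) * T = C * w / (Nat.totient k * Real.log Zj) := by
    have h1 : ((above k d l).card : ℝ) * Nat.totient k = Nat.totient (k * d) := by
      exact_mod_cast card_above hk hDj hl
    have h2 : (0 : ℝ) < (above k d l).card := by
      by_contra h
      have h0 : ((above k d l).card : ℝ) = 0 := le_antisymm (not_lt.1 h) (Nat.cast_nonneg _)
      rw [h0] at h1
      linarith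
    rw [hT, ← h1]
    generalize ((above k d l).card : ℝ) = Q at h2 ⊢
    generalize (Nat.totient k : ℝ) = P at htk ⊢
    clear h1
    field_simp
  have hS : ∑ i ∈ range m, ∑ a ∈ above k d l,
      (cnt (x - y + (i + 1) * w) w (k * d) a : ℝ) ≤ m * ((above k d l).card * T) := by
    calc ∑ i ∈ range m, ∑ a ∈ above k d l, (cnt (x - y + (i + 1) * w) w (k * d) a : ℝ)
        ≤ ∑ i ∈ range m, ∑ a ∈ above k d l, T :=
          sum_le_sum fun i _ => sum_le_sum fun a ha => hcell i a ha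
      _ = m * ((above k d l).card * T) := by
          simp only [sum_const, card_range, nsmul_eq_mul]
  -- the length of the cells is small
  have hdZ : d * Zj ≤ z * t := by
    have h1 : Real.log (d * Zj) ≤ (1 - t / 4) * Real.log z := by
      rw [Real.log_mul (by linarith) (by linarith)]
      have h2 : Real.log d + Real.log Zj ≤ (1 + t / 4) * Real.log Zj := by linarith
      have h3 : (1 + t / 4) * Real.log Zj ≤ (1 + t / 4) * ((1 - t / 2) * Real.log z) :=
        mul_le_mul_of_nonneg_left hj1 (by linarith)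
      have h4 : (1 + t / 4) * ((1 - t / 2) * Real.log z) =
          (1 - t / 4) * Real.log z - t ^ 2 / 8 * Real.log z := by ring
      have h5 : 0 ≤ t ^ 2 / 8 * Real.log z := by positivity
      linarith
    rw [← Real.log_rpow hz0] at h1
    have h2 : d * Zj ≤ z ^ (1 - t / 4) :=
      (Real.log_le_log_iff (by positivity) (by positivity)).1 h1
    have h3 : z ^ (1 - t / 4) = z * z ^ (-(t / 4)) := by
      rw [sub_eq_add_neg, Real.rpow_add hz0, Real.rpow_one]
    rw [h3] at h2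
    exact h2.trans (mul_le_mul_of_nonneg_left g2 hz0.le)
  have hwy : w ≤ t * y := by
    rw [hw', hyz]
    calc (k : ℝ) * (d * Zj) ≤ k * (z * t) := by gcongr
      _ = _ := by ring
  obtain ⟨U, hU⟩ : ∃ U : ℝ, U = y / (Nat.totient k * Real.log z) := ⟨_, rfl⟩
  have hU0 : 0 < U := by rw [hU]; positivity
  -- main term
  have hmain : (m : ℝ) * ((above k d l).card * T) ≤ C * (1 + t) / (1 - t) * U := by
    rw [hcard]
    have h1 : (m : ℝ) * (C * w / (Nat.totient k * Real.log Zj)) =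
        C * (m * w) / (Nat.totient k * Real.log Zj) := by ring
    rw [h1]
    have h2 : C * (1 + t) / (1 - t) * U =
        C * ((1 + t) * y) / (Nat.totient k * ((1 - t) * Real.log z)) := by
      have h3 : (1 - t) ≠ 0 := by linarith
      rw [hU]
      field_simp
    rw [h2]
    have h4 : 0 < (1 - t) * Real.log z := mul_pos (by linarith) hlz
    apply div_le_div₀
    · positivity
    · apply mul_le_mul_of_nonneg_left _ hC0.le
      linarith
    · positivity
    · exact mul_le_mul_of_nonneg_left hj2 htk.le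
  -- the primes dividing the modulus
  have hsmall : Real.log d / Real.log 2 ≤ t * U := by
    have hl2 : 1 / 2 < Real.log 2 := by
      have := Real.log_two_gt_d9
      linarith
    have h0 : 0 ≤ Real.log d := Real.log_nonneg hd1
    have h1 : Real.log d ≤ 1 / 2 * Real.log z := by
      have h2 : Real.log Zj ≤ Real.log z := by
        have : 0 ≤ t / 2 * Real.log z := by positivity
        linarith
      have h3 : t / 4 * Real.log Zj ≤ 1 / 2 * Real.log z := by
        have : t / 4 ≤ 1 / 2 := by linarith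
        gcongr
      linarith
    have h4 : Real.log d / Real.log 2 ≤ Real.log z := by
      rw [div_le_iff₀ (by linarith)]
      have := mul_le_mul_of_nonneg_left hl2.le hlz.le
      linarith
    have h5 : Real.log z ≤ t * U := by
      rw [hU, mul_div_assoc', le_div_iff₀ (by positivity), hyz]
      have hkk : (Nat.totient k : ℝ) ≤ k := by exact_mod_cast Nat.totient_le k
      calc Real.log z * (Nat.totient k * Real.log z) = Nat.totient k * Real.log z ^ 2 := by ring
        _ ≤ k * (t * z) := by gcongr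
        _ = _ := by ring
    linarith
  have hfin := const_ineq hC0 hC2 hη0 hη1
  have hgoal : (C + ε) * y / (Nat.totient k * Real.log z) = (C + 16 * t) * U := by
    rw [hU, ht]; ring
  rw [hgoal]
  calc (cnt x y k l : ℝ) ≤ Real.log d / Real.log 2 + ∑ i ∈ range m, ∑ a ∈ above k d l,
        (cnt (x - y + (i + 1) * w) w (k * d) a : ℝ) := hsum
    _ ≤ t * U + C * (1 + t) / (1 - t) * U := by linarith
    _ = (t + C * (1 + t) / (1 - t)) * U := by ring
    _ ≤ (C + 16 * t) * U := mul_le_mul_of_nonneg_right hfin hU0.le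

end Pool.Agent.H617R3.BT
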