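import Pool.Agent.H617R3.BT.Main
import Pool.Agent.Helper923.PNT

set_option autoImplicit false

/-!
# Maximal densities of primes in progressions: almost monotone and regular at most scales
-/

namespace Pool.Agent.H617R3.BT

open Finset Filter Topology

/-- densities `φ(k) cnt / y` of all progressions with `y = k z` -/
def densSet (z : ℝ) : Set ℝ := {d | ∃ (k : ℕ) (l : ℤ) (x : ℝ), 1 ≤ k ∧ Int.gcd l k = 1 ∧
  k * z ≤ x ∧ d = (Nat.totient k : ℝ) * cnt x (k * z) k l / (k * z)}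

/-- the largest density at ratio `z` -/
noncomputable def Mx (z : ℝ) : ℝ := sSup (densSet z)

theorem pi_le_cnt {x : ℝ} (hx : 0 ≤ x) : (Nat.primeCounting ⌊x⌋₊ : ℝ) ≤ cnt x x 1 0 := by
  rw [cnt_eq]
  have : Nat.primeCounting ⌊x⌋₊ ≤ (pf x x 1 0).card := by
    unfold Nat.primeCounting Nat.primeCounting'
    rw [Nat.count_eq_card_filter_range]
    apply card_le_card
    intro p hp
    rw [mem_filter, mem_range] at hp
    rw [mem_pf]
    refine ⟨hp.2, ?_, ?_, ?_⟩
    · rw [sub_self]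
      exact_mod_cast hp.2.pos
    · have h3 : p ≤ ⌊x⌋₊ := by omega
      exact (Nat.le_floor_iff hx).1 h3
    · rw [Nat.cast_one]
      exact Int.modEq_one
  exact_mod_cast this

theorem bdd_mx : ∃ Z : ℝ, 3 ≤ Z ∧ ∀ z, Z ≤ z → ∀ d ∈ densSet z, d ≤ 3 / Real.log z := by
  obtain ⟨Z, hZ3, hZ⟩ := bt 1 one_pos
  refine ⟨Z, hZ3, ?_⟩
  rintro z hz d ⟨k, l, x, hk, hl, hx, rfl⟩
  have hk' : (0 : ℝ) < k := by exact_mod_cast hk
  have htk : (0 : ℝ) < Nat.totient k := by exact_mod_cast Nat.totient_pos.2 hk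
  have hz0 : 0 < z := by linarith
  have hlz : 0 < Real.log z := Real.log_pos (by linarith)
  have h1 : (k : ℝ) * z / k = z := by field_simp
  have h2 := hZ k l x (k * z) hk (by rw [h1]; exact hz)
  rw [h1] at h2
  rw [div_le_div_iff₀ (by positivity) hlz]
  rw [le_div_iff₀ (by positivity)] at h2
  linarith

theorem mx_lower : ∃ Z : ℝ, 3 ≤ Z ∧ ∀ z, Z ≤ z → BddAbove (densSet z) ∧ (densSet z).Nonempty ∧
    1 / (2 * Real.log z) ≤ Mx z := by
  obtain ⟨Z1, hZ13, hZ1⟩ := bdd_mx
  have hp := Pool.Agent.Helper923.PNT.pi_tendsto.eventually_const_lt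
    (show (1 / 2 : ℝ) < 1 by norm_num)
  obtain ⟨Z2, hZ2⟩ := eventually_atTop.1 hp
  refine ⟨max Z1 Z2, le_max_of_le_left hZ13, fun z hz => ?_⟩
  have hz1 : Z1 ≤ z := (le_max_left _ _).trans hz
  have hz2 : Z2 ≤ z := (le_max_right _ _).trans hz
  have hz0 : 0 < z := by linarith
  have hlz : 0 < Real.log z := Real.log_pos (by linarith)
  have hbdd : BddAbove (densSet z) := ⟨_, fun d hd => hZ1 z hz1 d hd⟩
  have hmem : (cnt z z 1 0 : ℝ) / z ∈ densSet z :=
    ⟨1, 0, z, le_rfl, by simp, by simp, by simp⟩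
  refine ⟨hbdd, ⟨_, hmem⟩, le_trans ?_ (le_csSup hbdd hmem)⟩
  have h1 := hZ2 z hz2
  have h2 := pi_le_cnt hz0.le
  rw [lt_div_iff₀ hz0] at h1
  rw [div_le_div_iff₀ (by positivity) hz0]
  have h3 := mul_le_mul_of_nonneg_right h2 hlz.le
  linarith

theorem cell_le {r : ℝ} (hr : 0 < r) (hb : BddAbove (densSet r)) {K : ℕ} {a : ℤ} {X : ℝ}
    (hK : 1 ≤ K) (ha : Int.gcd a K = 1) (hX : K * r ≤ X) :
    (cnt X (K * r) K a : ℝ) ≤ Mx r * (K * r) / Nat.totient K := by
  have hK' : (0 : ℝ) < K := by exact_mod_cast hK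
  have htK : (0 : ℝ) < Nat.totient K := by exact_mod_cast Nat.totient_pos.2 hK
  have hmem : (Nat.totient K : ℝ) * cnt X (K * r) K a / (K * r) ∈ densSet r :=
    ⟨K, a, X, hK, ha, hX, rfl⟩
  have h1 : (Nat.totient K : ℝ) * cnt X (K * r) K a / (K * r) ≤ Mx r := le_csSup hb hmem
  rw [le_div_iff₀ htK]
  rw [div_le_iff₀ (by positivity)] at h1
  linarith

theorem mx_mono {z r : ℝ} (hr : 0 < r) (hz : 0 < z) (hb : BddAbove (densSet r))
    (hne : (densSet z).Nonempty) (hM : 0 ≤ Mx r) : Mx z ≤ (1 + r / z) * Mx r := by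
  apply csSup_le hne
  rintro d ⟨k, l, x, hk, hl, hx, rfl⟩
  have hk' : (0 : ℝ) < k := by exact_mod_cast hk
  have htk : (0 : ℝ) < Nat.totient k := by exact_mod_cast Nat.totient_pos.2 hk
  obtain ⟨w, hw⟩ : ∃ w : ℝ, w = k * r := ⟨_, rfl⟩
  have hw0 : 0 < w := by rw [hw]; positivity
  obtain ⟨y, hy⟩ : ∃ y : ℝ, y = k * z := ⟨_, rfl⟩
  have hy0 : 0 < y := by rw [hy]; positivity
  rw [← hy] at hx ⊢
  obtain ⟨m, hm⟩ : ∃ m : ℕ, m = ⌈y / w⌉₊ := ⟨_, rfl⟩
  have hm1 : y ≤ m * w := by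
    rw [← div_le_iff₀ hw0, hm]
    exact Nat.le_ceil _
  have hm2 : m * w ≤ y + w := by
    have h1 : (m : ℝ) < y / w + 1 := by rw [hm]; exact Nat.ceil_lt_add_one (by positivity)
    have h2 := mul_le_mul_of_nonneg_right h1.le hw0.le
    rwa [add_mul, div_mul_cancel₀ _ hw0.ne', one_mul] at h2
  have hsum := cnt_le_cells (q := 1) (m := m) (x := x) (y := y) hk le_rfl hl hw0 hm1
  have hcard : (above k 1 l).card = 1 := by
    have h1 := card_above (q := 1) hk le_rfl hl
    rw [mul_one] at h1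
    exact Nat.eq_of_mul_eq_mul_right (Nat.totient_pos.2 hk) (by rw [one_mul]; exact h1)
  have hcell : ∀ i : ℕ, ∀ a ∈ above k 1 l,
      (cnt (x - y + (i + 1) * w) w (k * 1) a : ℝ) ≤ Mx r * w / Nat.totient k := by
    intro i a ha
    have ha' := (mem_filter.1 ha).2.1
    rw [mul_one] at ha' ⊢
    have h1 : Int.gcd (a : ℤ) k = 1 := by
      rw [Int.gcd_natCast_natCast]; exact ha'
    have h2 : (k : ℝ) * r ≤ x - y + (i + 1) * w := by
      rw [← hw]
      have : 0 ≤ (i : ℝ) * w := by positivity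
      linarith
    have h3 := cell_le hr hb hk h1 h2
    rw [← hw] at h3
    exact h3
  have hS : ∑ i ∈ range m, ∑ a ∈ above k 1 l,
      (cnt (x - y + (i + 1) * w) w (k * 1) a : ℝ) ≤ m * (Mx r * w / Nat.totient k) := by
    calc ∑ i ∈ range m, ∑ a ∈ above k 1 l, (cnt (x - y + (i + 1) * w) w (k * 1) a : ℝ)
        ≤ ∑ i ∈ range m, ∑ a ∈ above k 1 l, Mx r * w / Nat.totient k :=
          sum_le_sum fun i _ => sum_le_sum fun a ha => hcell i a ha
      _ = m * (Mx r * w / Nat.totient k) := by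
          simp only [sum_const, card_range, hcard, nsmul_eq_mul, Nat.cast_one, one_mul]
  rw [Nat.cast_one, Real.log_one, zero_div, zero_add] at hsum
  have h1 : (cnt x y k l : ℝ) ≤ m * (Mx r * w / Nat.totient k) := hsum.trans hS
  have h2 : (m : ℝ) * (Mx r * w / Nat.totient k) = Mx r * (m * w) / Nat.totient k := by ring
  rw [h2, le_div_iff₀ htk] at h1
  have h3 : Mx r * (m * w) ≤ Mx r * (y + w) := mul_le_mul_of_nonneg_left hm2 hM
  have h4 : (1 + r / z) * Mx r * y = Mx r * (y + w) := by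
    rw [hy, hw]; field_simp
  rw [div_le_iff₀ hy0, h4]
  linarith

/-- the core of the equidistribution argument -/
theorem tv_core {k q m : ℕ} {l : ℤ} {x y ε : ℝ} (hk : 1 ≤ k) (hq : 1 ≤ q) (hm : 1 ≤ m)
    (hl : Int.gcd l k = 1) (hy : 0 < y) (hε : 0 ≤ ε)
    (hcell : ∀ (i a : ℕ), a ∈ above k q l →
      (cnt (x - y + (i + 1) * (y / m)) (y / m) (k * q) a : ℝ) ≤
        (1 + ε) * ((cnt x y k l : ℝ) * Nat.totient k / (m * Nat.totient (k * q))))
    (hlq : Real.log q / Real.log 2 ≤ ε * cnt x y k l) :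
    ∑ i ∈ range m, ∑ a ∈ above k q l,
        |(cnt (x - y + (i + 1) * (y / m)) (y / m) (k * q) a : ℝ) -
          (cnt x y k l : ℝ) * Nat.totient k / (m * Nat.totient (k * q))| ≤
        3 * ε * cnt x y k l := by
  have hk' : (0 : ℝ) < k := by exact_mod_cast hk
  have hm' : (1 : ℝ) ≤ m := by exact_mod_cast hm
  have hkq : 1 ≤ k * q := Nat.mul_pos hk hq
  have htk : (0 : ℝ) < Nat.totient k := by exact_mod_cast Nat.totient_pos.2 hk
  have htkq : (0 : ℝ) < Nat.totient (k * q) := by exact_mod_cast Nat.totient_pos.2 hkq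
  have hw : 0 < y / m := by positivity
  obtain ⟨A, hA⟩ : ∃ A : ℝ, A = (cnt x y k l : ℝ) * Nat.totient k / (m * Nat.totient (k * q)) :=
    ⟨_, rfl⟩
  rw [← hA] at hcell ⊢
  have hA0 : 0 ≤ A := by rw [hA]; positivity
  have hcard : (m : ℝ) * ((above k q l).card * A) = cnt x y k l := by
    have h1 : ((above k q l).card : ℝ) * Nat.totient k = Nat.totient (k * q) := by
      exact_mod_cast card_above hk hq hl
    rw [hA, ← h1]
    have h2 : (0 : ℝ) < (above k q l).card := by
      by_contra h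
      have h0 : ((above k q l).card : ℝ) = 0 := le_antisymm (not_lt.1 h) (Nat.cast_nonneg _)
      rw [h0] at h1
      linarith
    have hm0 : (0 : ℝ) < m := by linarith
    clear hA hcell
    generalize (cnt x y k l : ℝ) = N at *
    generalize ((above k q l).card : ℝ) = Q at *
    generalize (Nat.totient k : ℝ) = P at *
    field_simp
  have hsum := cnt_le_cells (m := m) (x := x) (y := y) hk hq hl hw
    (by rw [mul_div_cancel₀ _ (by linarith)])
  have hpt : ∀ c : ℝ, c ≤ (1 + ε) * A → |c - A| ≤ 2 * ε * A + A - c := by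
    intro c hc
    have h0 : 0 ≤ ε * A := by positivity
    rw [abs_le]
    constructor
    · linarith
    · linarith
  calc ∑ i ∈ range m, ∑ a ∈ above k q l,
        |(cnt (x - y + (i + 1) * (y / m)) (y / m) (k * q) a : ℝ) - A|
      ≤ ∑ i ∈ range m, ∑ a ∈ above k q l, (2 * ε * A + A -
        (cnt (x - y + (i + 1) * (y / m)) (y / m) (k * q) a : ℝ)) :=
        sum_le_sum fun i _ => sum_le_sum fun a ha => hpt _ (hcell i a ha)
    _ = (2 * ε + 1) * (m * ((above k q l).card * A)) - ∑ i ∈ range m, ∑ a ∈ above k q l,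
        (cnt (x - y + (i + 1) * (y / m)) (y / m) (k * q) a : ℝ) := by
        simp only [sum_sub_distrib, sum_const, card_range, nsmul_eq_mul]
        ring
    _ ≤ 3 * ε * cnt x y k l := by
        rw [hcard]
        linarith

/-- few large jumps of an almost monotone sequence of linear growth -/
theorem count_bad (g : ℕ → ℝ) (J0 : ℕ) {τ η : ℝ} (hη : 0 ≤ η) (hτ : 0 ≤ τ)
    (h1 : ∀ j, J0 ≤ j → -τ ≤ g (j + 3) - g j) :
    ∀ n : ℕ, η * (((range (J0 + n)).filter (fun j => η < g (j + 3) - g j)).card : ℝ) ≤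
      η * J0 + (g (J0 + n) + g (J0 + n + 1) + g (J0 + n + 2)) -
        (g J0 + g (J0 + 1) + g (J0 + 2)) + τ * n := by
  classical
  intro n
  induction n with
  | zero =>
    have h2 : (((range (J0 + 0)).filter (fun j => η < g (j + 3) - g j)).card : ℝ) ≤ J0 := by
      have := card_filter_le (range (J0 + 0)) (fun j => η < g (j + 3) - g j)
      rw [card_range, add_zero] at this
      exact_mod_cast this
    have h3 := mul_le_mul_of_nonneg_left h2 hη
    simp only [add_zero, Nat.cast_zero, mul_zero] at h3 ⊢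
    linarith
  | succ n ih =>
    have h2 := h1 (J0 + n) (by omega)
    have e : J0 + (n + 1) = (J0 + n) + 1 := by ring
    rw [e, range_add_one, filter_insert]
    have e1 : J0 + n + 1 + 1 = J0 + n + 2 := by ring
    have e2 : J0 + n + 1 + 2 = J0 + n + 3 := by ring
    rw [e1, e2]
    split_ifs with hb
    · rw [card_insert_of_notMem (by simp)]
      push_cast
      linarith
    · push_cast
      linarith

end Pool.Agent.H617R3.BT
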